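import Pool.Agent.W345.GK.Cl2

/-!
Project GK (helper345): Jacobson's formula `(D + a)^p = D^p + a^p + D^(p-1) a`.
-/

set_option autoImplicit false

namespace Pool.Agent.W99.GK

open Finset Pool.Agent.W345.GK

/-- coefficients of `(D + a X)^n 1` -/
def cf {E : Type} [Field E] (D : E → E) (a : E) : ℕ → ℕ → E
  | 0, 0 => 1
  | 0, _ + 1 => 0
  | n + 1, 0 => D (cf D a n 0)
  | n + 1, i + 1 => D (cf D a n (i + 1)) + a * cf D a n i

section

variable {E : Type} [Field E] {D : E → E}

lemma D_zero (hD : ∀ x y, D (x + y) = D x + D y) : D 0 = 0 := by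
  have h := hD 0 0
  rw [add_zero] at h
  simpa using h

lemma D_sum (hD : ∀ x y, D (x + y) = D x + D y) {ι : Type} (s : Finset ι) (f : ι → E) :
    D (∑ i ∈ s, f i) = ∑ i ∈ s, D (f i) := by
  classical
  induction s using Finset.induction_on with
  | empty => simpa using D_zero hD
  | insert x s hx ih => rw [sum_insert hx, sum_insert hx, hD, ih]

lemma D_natmul (hD : ∀ x y, D (x + y) = D x + D y) (n : ℕ) (x : E) :
    D ((n : E) * x) = (n : E) * D x := by
  induction n with
  | zero => simpa using D_zero hD
  | succ n ih => rw [Nat.cast_succ, add_mul, hD, ih, one_mul, add_mul, one_mul]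

lemma cf_gt (hD : ∀ x y, D (x + y) = D x + D y) (a : E) :
    ∀ n i, n < i → cf D a n i = 0 := by
  intro n
  induction n with
  | zero =>
    intro i hi
    obtain ⟨j, rfl⟩ := Nat.exists_eq_succ_of_ne_zero (by omega : i ≠ 0)
    rfl
  | succ n ih =>
    intro i hi
    obtain ⟨j, rfl⟩ := Nat.exists_eq_succ_of_ne_zero (by omega : i ≠ 0)
    have h1 : cf D a (n + 1) (j + 1) = D (cf D a n (j + 1)) + a * cf D a n j := rfl
    rw [Nat.succ_eq_add_one, h1, ih _ (by omega), ih _ (by omega), D_zero hD, mul_zero, add_zero]

lemma cf_diag (hD : ∀ x y, D (x + y) = D x + D y) (a : E) : ∀ n, cf D a n n = a ^ n := by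
  intro n
  induction n with
  | zero => simp [cf]
  | succ n ih =>
    have h1 : cf D a (n + 1) (n + 1) = D (cf D a n (n + 1)) + a * cf D a n n := rfl
    rw [h1, cf_gt hD a n (n + 1) (by omega), ih, D_zero hD, zero_add, pow_succ, mul_comm]

lemma iter_one (hD : ∀ x y, D (x + y) = D x + D y) (a : E) (n : ℕ) :
    (fun z => D z + a * z)^[n] 1 = ∑ i ∈ range (n + 1), cf D a n i := by
  induction n with
  | zero => simp [cf]
  | succ n ih =>
    rw [Function.iterate_succ_apply', ih, sum_range_succ' (cf D a (n + 1)) (n + 1)]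
    have h1 : ∀ i, cf D a (n + 1) (i + 1) = D (cf D a n (i + 1)) + a * cf D a n i := fun _ => rfl
    have h0 : cf D a (n + 1) 0 = D (cf D a n 0) := rfl
    simp only [h1, h0]
    rw [sum_add_distrib, ← mul_sum]
    have h2 : D (∑ i ∈ range (n + 1), cf D a n i) =
        ∑ i ∈ range (n + 1), D (cf D a n (i + 1)) + D (cf D a n 0) := by
      rw [← sum_range_succ' (fun i => D (cf D a n i)) (n + 1), sum_range_succ _ (n + 1),
        cf_gt hD a n (n + 1) (by omega), D_zero hD, add_zero, D_sum hD]
    rw [h2]
    ring

lemma key (hD : ∀ x y, D (x + y) = D x + D y) (hL : ∀ x y, D (x * y) = x * D y + y * D x)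
    (a : E) : ∀ n i : ℕ, ((i + 1 : ℕ) : E) * cf D a (n + 1) (i + 1) =
      ∑ q ∈ antidiagonal n, ((n + 1).choose (q.1 + 1) : E) * (D^[q.1] a * cf D a q.2 i) := by
  intro n
  induction n with
  | zero =>
    intro i
    have h1 : cf D a (0 + 1) (i + 1) = D (cf D a 0 (i + 1)) + a * cf D a 0 i := rfl
    have h2 : cf D a 0 (i + 1) = 0 := rfl
    rw [h1, h2, D_zero hD, zero_add]
    rw [Finset.HasAntidiagonal.antidiagonal_zero, sum_singleton]
    simp only [zero_add, Nat.choose_self, Nat.cast_one, one_mul,
      Function.iterate_zero, id_eq]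
    cases i with
    | zero => simp
    | succ i =>
      have h3 : cf D a 0 (i + 1) = 0 := rfl
      rw [h3, mul_zero, mul_zero]
  | succ n ih =>
    intro i
    have hrec : ∀ m j, cf D a (m + 1) (j + 1) = D (cf D a m (j + 1)) + a * cf D a m j :=
      fun _ _ => rfl
    rw [hrec (n + 1) i, mul_add, ← D_natmul hD, ih i, D_sum hD]
    -- D of each term
    have h1 : ∀ q ∈ antidiagonal n,
        D (((n + 1).choose (q.1 + 1) : E) * (D^[q.1] a * cf D a q.2 i)) =
        ((n + 1).choose (q.1 + 1) : E) * (D^[q.1 + 1] a * cf D a q.2 i) +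
        ((n + 1).choose (q.1 + 1) : E) * (D^[q.1] a * D (cf D a q.2 i)) := by
      intro q _
      rw [D_natmul hD, hL, Function.iterate_succ_apply']
      ring
    rw [sum_congr rfl h1, sum_add_distrib]
    -- second part
    have h2 : ∑ q ∈ antidiagonal n,
        ((n + 1).choose (q.1 + 1) : E) * (D^[q.1] a * D (cf D a q.2 i)) =
        ∑ q ∈ antidiagonal n,
        ((n + 1).choose (q.1 + 1) : E) * (D^[q.1] a * cf D a (q.2 + 1) i) -
        (i : E) * (a * cf D a (n + 1) i) := by
      cases i with
      | zero =>
        rw [Nat.cast_zero, zero_mul, sub_zero]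
        rfl
      | succ i =>
        have h3 : (((i + 1 : ℕ) : E)) * (a * cf D a (n + 1) (i + 1)) =
            ∑ q ∈ antidiagonal n,
              ((n + 1).choose (q.1 + 1) : E) * (D^[q.1] a * (a * cf D a q.2 i)) := by
          rw [mul_left_comm, ih i, mul_sum]
          refine sum_congr rfl fun q _ => ?_
          ring
        rw [h3, ← sum_sub_distrib]
        refine sum_congr rfl fun q _ => ?_
        rw [hrec q.2 i]
        ring
    rw [h2]
    -- right-hand side
    have h4 : ∑ q ∈ antidiagonal (n + 1),
        ((n + 1 + 1).choose (q.1 + 1) : E) * (D^[q.1] a * cf D a q.2 i) =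
        ∑ q ∈ antidiagonal (n + 1), ((n + 1).choose q.1 : E) * (D^[q.1] a * cf D a q.2 i) +
        ∑ q ∈ antidiagonal (n + 1),
          ((n + 1).choose (q.1 + 1) : E) * (D^[q.1] a * cf D a q.2 i) := by
      rw [← sum_add_distrib]
      refine sum_congr rfl fun q _ => ?_
      rw [Nat.choose_succ_succ' (n + 1) q.1, Nat.cast_add]
      ring
    rw [h4, Finset.Nat.sum_antidiagonal_succ, Finset.Nat.sum_antidiagonal_succ']
    simp only [Nat.choose_zero_right, Nat.cast_one, one_mul, Function.iterate_zero, id_eq,
      Nat.choose_succ_self, Nat.cast_zero, zero_mul, add_zero, zero_add]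
    push_cast
    ring

/-- Leibniz rule for the iterates -/
lemma leib (hD : ∀ x y, D (x + y) = D x + D y) (hL : ∀ x y, D (x * y) = x * D y + y * D x)
    (a u v : E) (n : ℕ) : (fun z => D z + a * z)^[n] (u * v) =
      ∑ q ∈ antidiagonal n, n.choose q.1 • ((fun z => D z + a * z)^[q.1] u * D^[q.2] v) := by
  induction n with
  | zero => simp
  | succ n ih =>
    rw [Function.iterate_succ_apply', ih, Finset.sum_antidiagonal_choose_succ_nsmul
      (fun i j => (fun z => D z + a * z)^[i] u * D^[j] v) n, D_sum hD, mul_sum,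
      ← sum_add_distrib, ← sum_add_distrib]
    refine sum_congr rfl fun q hq => ?_
    have h1 : n.choose q.2 = n.choose q.1 := by
      have : q.1 + q.2 = n := by simpa using hq
      rw [← this, Nat.choose_symm_add]
    rw [h1, nsmul_eq_mul, nsmul_eq_mul, nsmul_eq_mul, D_natmul hD, hL,
      Function.iterate_succ_apply', Function.iterate_succ_apply']
    ring

end

theorem jcf : S_JCF := by
  intro E _ p hp _ D hD hL hDp y hy x
  have hp2 := hp.out.two_le
  have hD0 : D 0 = 0 := D_zero hD
  have hD1 : D 1 = 0 := by
    have h := hL 1 1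
    rw [mul_one, one_mul] at h
    simpa using h
  have hneg : ∀ x, D (-x) = -D x := by
    intro x
    have h := hD x (-x)
    rw [add_neg_cancel, hD0] at h
    linear_combination -h
  have hnegi : ∀ n, ∀ x, D^[n] (-x) = -D^[n] x := by
    intro n
    induction n with
    | zero => intro x; rfl
    | succ n ih =>
      intro x
      rw [Function.iterate_succ_apply', ih, hneg, ← Function.iterate_succ_apply' D]
  have hfun : (fun z => D z - y * z) = (fun z => D z + (-y) * z) := by
    funext z
    ring
  rw [hfun]
  -- reduction to `1`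
  have hchoose : ∀ q ∈ antidiagonal p, q ≠ (0, p) → q ≠ (p, 0) → (p.choose q.1 : E) = 0 := by
    intro q hq h1 h2
    have hs : q.1 + q.2 = p := by simpa using hq
    have hd : p ∣ p.choose q.1 := by
      apply hp.out.dvd_choose_self
      · intro h
        apply h1
        ext
        · exact h
        · simp only
          omega
      · rcases Nat.lt_or_ge q.1 p with h | h
        · exact h
        · exfalso
          apply h2
          ext
          · simp only
            omega
          · simp only
            omega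
    exact (CharP.cast_eq_zero_iff E p _).2 hd
  have hx : (fun z => D z + (-y) * z)^[p] x = (fun z => D z + (-y) * z)^[p] 1 * x := by
    have h := leib hD hL (-y) 1 x p
    rw [one_mul] at h
    rw [h, sum_eq_single (p, 0)]
    · simp
    · intro q hq hne
      by_cases h0 : q = (0, p)
      · rw [h0, hDp x, mul_zero, smul_zero]
      · rw [nsmul_eq_mul, hchoose q hq h0 hne, zero_mul]
    · intro h0
      exact absurd (by simp) h0
  rw [hx, iter_one hD (-y) p]
  -- coefficients
  obtain ⟨m, rfl⟩ : ∃ m, p = m + 1 := ⟨p - 1, by omega⟩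
  have hk : ∀ i, ((i + 1 : ℕ) : E) * cf D (-y) (m + 1) (i + 1) =
      D^[m] (-y) * cf D (-y) 0 i := by
    intro i
    rw [key hD hL (-y) m i, sum_eq_single (m, 0)]
    · simp
    · intro q hq hne
      have hs : q.1 + q.2 = m := by simpa using hq
      have h1 : ((m + 1).choose (q.1 + 1) : E) = 0 := by
        apply hchoose (q.1 + 1, q.2)
        · rw [Finset.HasAntidiagonal.mem_antidiagonal]
          simp only
          omega
        · intro h
          have := congrArg Prod.fst h
          simp only at this
          omega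
        · intro h
          apply hne
          have h3 := congrArg Prod.fst h
          have h4 := congrArg Prod.snd h
          simp only at h3 h4
          ext
          · simp only
            omega
          · exact h4
      rw [h1, zero_mul]
    · intro h0
      exact absurd (by simp) h0
  have hc0 : cf D (-y) (m + 1) 0 = 0 := by
    have h : ∀ n, cf D (-y) (n + 1) 0 = 0 := by
      intro n
      induction n with
      | zero => exact hD1
      | succ n ih =>
        have h1 : cf D (-y) (n + 1 + 1) 0 = D (cf D (-y) (n + 1) 0) := rfl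
        rw [h1, ih, hD0]
    exact h m
  have hc1 : cf D (-y) (m + 1) 1 = -D^[m] y := by
    have h := hk 0
    have h1 : cf D (-y) 0 0 = 1 := rfl
    rw [h1, mul_one, hnegi] at h
    simpa using h
  have hcp : cf D (-y) (m + 1) (m + 1) = -y ^ (m + 1) := by
    rw [cf_diag hD, neg_pow, neg_one_pow_char E (m + 1), neg_one_mul]
  have hci : ∀ i, 2 ≤ i → i < m + 1 → cf D (-y) (m + 1) i = 0 := by
    intro i h2 hi
    obtain ⟨j, rfl⟩ : ∃ j, i = j + 1 := ⟨i - 1, by omega⟩
    obtain ⟨l, rfl⟩ : ∃ l, j = l + 1 := ⟨j - 1, by omega⟩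
    have h := hk (l + 1)
    have h1 : cf D (-y) 0 (l + 1) = 0 := rfl
    rw [h1, mul_zero, mul_eq_zero] at h
    rcases h with h | h
    · exfalso
      rw [CharP.cast_eq_zero_iff E (m + 1)] at h
      exact absurd (Nat.le_of_dvd (by omega) h) (by omega)
    · exact h
  have hsum : ∑ i ∈ range (m + 1 + 1), cf D (-y) (m + 1) i = -D^[m] y + -y ^ (m + 1) := by
    rw [sum_range_succ, hcp]
    congr 1
    rw [sum_eq_single 1]
    · exact hc1
    · intro i hi hne
      rw [mem_range] at hi
      rcases Nat.lt_or_ge i 2 with h | h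
      · have : i = 0 := by omega
        rw [this, hc0]
      · exact hci i h hi
    · intro h0
      rw [mem_range] at h0
      omega
  rw [hsum, hy]
  simp

end Pool.Agent.W99.GK
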